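import Pool.Agent.helper95.RF.SpecC2

/-!
# Project RF (MP_16912e_nt), row CBD: upper bound for the tuples with `c g ∣ M`
-/

set_option autoImplicit false

namespace Pool.Agent.RF

open Finset NumberField Pool.Agent.helper3.FT

/-! ## 1. Algebra -/

theorem CBD_nm (z : OO) : ((z.norm : ℤ) : OO) = z * star z := by
  rw [← QuadraticAlgebra.algebraMap_norm_eq_mul_star z]
  rfl

theorem CBD_nmA (z : OO) : ∃ e : OO, z * e = ((z.norm.natAbs : ℕ) : OO) := by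
  rcases Int.natAbs_eq z.norm with h | h
  · refine ⟨star z, ?_⟩
    rw [← CBD_nm]
    conv_lhs => rw [h]
    rw [Int.cast_natCast]
  · refine ⟨-star z, ?_⟩
    rw [mul_neg, ← CBD_nm]
    conv_lhs => rw [h]
    rw [Int.cast_neg, Int.cast_natCast, neg_neg]

theorem CBD_cop {k x : OO} {m : ℕ} (hx : x ∣ (m : OO)) (hm : Nat.Coprime k.norm.natAbs m) : IsCoprime k x := by
  have h1 : IsCoprime ((k.norm.natAbs : ℕ) : ℤ) (m : ℤ) := Nat.isCoprime_iff_coprime.2 hm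
  have h2 := h1.map (Int.castRingHom OO)
  simp only [eq_intCast, Int.cast_natCast] at h2
  obtain ⟨e, he⟩ := CBD_nmA k
  have h3 : k ∣ ((k.norm.natAbs : ℕ) : OO) := ⟨e, he.symm⟩
  exact IsCoprime.of_isCoprime_of_dvd_left (IsCoprime.of_isCoprime_of_dvd_right h2 hx) h3

theorem CBD_tw {k g M₂ : OO} {c : ℕ} {s₂ : ℤ} (hk : IsCoprime k ((c : OO) * g))
    (h : CG k ((c : OO) * g * M₂) ((c : ℤ) * g.norm * s₂)) : TW k g c M₂ s₂ := by
  unfold CG at h
  unfold TW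
  have h1 : ((((c : OO) * g * M₂).norm : ℤ) : OO) = (c : OO) * g * ((c : OO) * star g) * ((M₂.norm : ℤ) : OO) := by
    rw [CBD_nm, CBD_nm, star_mul', star_mul', star_natCast]
    ring
  have h2 : ((((c : ℤ) * g.norm * s₂ : ℤ)) : OO) = (c : OO) * (g * star g) * (s₂ : OO) := by
    rw [Int.cast_mul, Int.cast_mul, CBD_nm, Int.cast_natCast]
  rw [h1, h2] at h
  have h3 : star k ^ 2 * (r5 * ((c : OO) * (g * star g) * (s₂ : OO)) - (c : OO) * g * ((c : OO) * star g) * ((M₂.norm : ℤ) : OO)) -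
      2 * ph * k ^ 2 * ((c : OO) * g * M₂) ^ 2 =
      ((c : OO) * g) * (star g * (r5 * (s₂ : OO) - (((c : ℕ) : ℤ) : OO) * ((M₂.norm : ℤ) : OO)) * star k ^ 2 -
        2 * ph * (((c : ℕ) : ℤ) : OO) * k ^ 2 * g * M₂ ^ 2) := by
    rw [Int.cast_natCast]
    ring
  rw [h3] at h
  exact (hk.pow_left).dvd_of_dvd_mul_left h

theorem CBD_ext {x y : OO} {E : ℕ} (hE : 1 ≤ E) (h : (E : OO) * x = (E : OO) * y) : x = y := by
  have h1 := congrArg QuadraticAlgebra.re h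
  have h2 := congrArg QuadraticAlgebra.im h
  rw [QuadraticAlgebra.re_mul, QuadraticAlgebra.re_mul, QuadraticAlgebra.re_natCast, QuadraticAlgebra.im_natCast] at h1
  rw [QuadraticAlgebra.im_mul, QuadraticAlgebra.im_mul, QuadraticAlgebra.re_natCast, QuadraticAlgebra.im_natCast] at h2
  have hE0 : (E : ℤ) ≠ 0 := by positivity
  have h3 : (E : ℤ) * x.re = E * y.re := by linarith
  have h4 : (E : ℤ) * x.im = E * y.im := by linarith
  exact QuadraticAlgebra.ext (mul_left_cancel₀ hE0 h3) (mul_left_cancel₀ hE0 h4)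

/-- the class of `M₂` -/
theorem CBD_cls {E c : ℕ} {g : OO} {u : ℤ} (hu : (E : ℤ) ∣ (c : ℤ) * g.norm * u - 1) {M₀ M₂ w : OO}
    (h : (c : OO) * g * M₂ = M₀ + (E : OO) * w) : ∃ X : OO, M₂ = (u : OO) * star g * M₀ + (E : OO) * X := by
  obtain ⟨v, hv⟩ := hu
  have h1 : ((c : OO) * (g * star g) * (u : OO) - 1) = (E : OO) * (v : OO) := by
    have h2 := congrArg (fun n : ℤ => (n : OO)) hv
    simp only [Int.cast_sub, Int.cast_mul, Int.cast_natCast, Int.cast_one] at h2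
    rw [CBD_nm] at h2
    exact h2
  refine ⟨(u : OO) * star g * w - (v : OO) * M₂, ?_⟩
  linear_combination (u : OO) * star g * h - M₂ * h1

theorem CBD_clsZ {E c : ℕ} {d u : ℤ} (hu : (E : ℤ) ∣ (c : ℤ) * d * u - 1) {s₀ s₂ w : ℤ}
    (h : (c : ℤ) * d * s₂ = s₀ + (E : ℤ) * w) : ∃ Z : ℤ, s₂ = u * s₀ + (E : ℤ) * Z := by
  obtain ⟨v, hv⟩ := hu
  refine ⟨u * w - v * s₂, ?_⟩
  linear_combination u * h - s₂ * hv

/-! ## 2. Intervals -/

theorem CBD_int {E : ℕ} (hE : 1 ≤ E) (A len : ℝ) (m₀ : ℤ) (B' : ℕ) (hB : len / E < B') :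
    ∃ x₀ : ℤ, ∀ x : ℤ, A ≤ (m₀ : ℝ) + E * x → (m₀ : ℝ) + E * x ≤ A + len → x ∈ Ico x₀ (x₀ + B') := by
  have hE0 : (0 : ℝ) < E := by exact_mod_cast hE
  refine ⟨⌈(A - m₀) / E⌉, fun x h1 h2 => ?_⟩
  rw [mem_Ico]
  constructor
  · rw [Int.ceil_le, div_le_iff₀ hE0]
    linarith
  · have h3 : (x : ℝ) ≤ (A - m₀) / E + len / E := by
      rw [← add_div, le_div_iff₀ hE0]
      linarith
    have h4 := Int.le_ceil ((A - m₀) / E)
    have h5 : (x : ℝ) < (⌈(A - m₀) / E⌉ : ℝ) + B' := by linarith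
    exact_mod_cast h5

theorem CBD_div (d a w : ℝ) (hd : d ≠ 0) : ∃ A : ℝ, ∀ s : ℝ, a ≤ d * s → d * s ≤ a + w →
    A ≤ s ∧ s ≤ A + w / |d| := by
  rcases lt_or_gt_of_ne hd with h | h
  · refine ⟨(a + w) / d, fun s h1 h2 => ?_⟩
    have h0 : 0 < -d := by linarith
    rw [abs_of_neg h]
    have h3 : (a + w) / d = -((a + w) / (-d)) := by
      rw [div_neg, neg_neg]
    rw [h3]
    constructor
    · rw [neg_le, ← sub_nonneg]
      have : 0 ≤ ((a + w) - d * s) / (-d) := div_nonneg (by linarith) h0.le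
      have h5 : (a + w) / (-d) - -s = ((a + w) - d * s) / (-d) := by
        field_simp
        ring
      rw [h5]
      exact this
    · have : 0 ≤ (d * s - a) / (-d) := div_nonneg (by linarith) h0.le
      have h5 : -((a + w) / (-d)) + w / (-d) - s = (d * s - a) / (-d) := by
        field_simp
        ring
      linarith
  · refine ⟨a / d, fun s h1 h2 => ?_⟩
    rw [abs_of_pos h]
    constructor
    · rw [div_le_iff₀ h]
      linarith
    · rw [← add_div, le_div_iff₀ h]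
      linarith

/-! ## 3. One fibre -/

theorem CBD_re (M X : OO) (E : ℕ) : (M + (E : OO) * X).re = M.re + E * X.re := by
  rw [QuadraticAlgebra.re_add, QuadraticAlgebra.re_mul, QuadraticAlgebra.re_natCast, QuadraticAlgebra.im_natCast]
  ring

theorem CBD_im (M X : OO) (E : ℕ) : (M + (E : OO) * X).im = M.im + E * X.im := by
  rw [QuadraticAlgebra.im_add, QuadraticAlgebra.im_mul, QuadraticAlgebra.re_natCast, QuadraticAlgebra.im_natCast]
  ring

theorem CBD_size {a b m m' X d n r L : ℝ} (hr : 0 ≤ r) (ha : |a| ≤ r) (hb : |b| ≤ r) (hm0 : 0 ≤ m) (hm : m ≤ L)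
    (hm0' : 0 ≤ m') (hm' : m' ≤ L) (hd : |d| = n) (h : d * X = (a + b) * m - b * m' ∨ d * X = a * m' - b * m) :
    n * |X| ≤ 3 * r * L := by
  have hL : 0 ≤ L := hm0.trans hm
  rw [← hd, ← abs_mul]
  have h1 : |a * m| ≤ r * L := by
    rw [abs_mul, abs_of_nonneg hm0]
    exact mul_le_mul ha hm hm0 hr
  have h2 : |b * m| ≤ r * L := by
    rw [abs_mul, abs_of_nonneg hm0]
    exact mul_le_mul hb hm hm0 hr
  have h3 : |b * m'| ≤ r * L := by
    rw [abs_mul, abs_of_nonneg hm0']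
    exact mul_le_mul hb hm' hm0' hr
  have h4 : |a * m'| ≤ r * L := by
    rw [abs_mul, abs_of_nonneg hm0']
    exact mul_le_mul ha hm' hm0' hr
  have hrL : 0 ≤ r * L := mul_nonneg hr hL
  rw [abs_le] at h1 h2 h3 h4
  rcases h with h | h
  · rw [h, abs_le]
    constructor <;> nlinarith [h1.1, h1.2, h2.1, h2.2, h3.1, h3.2]
  · rw [h, abs_le]
    constructor <;> nlinarith [h2.1, h2.2, h4.1, h4.2]

open Classical in
theorem CBD_fib (hCLN : CLN_stmt) (E : ℕ) (hE : 1 ≤ E) (k g M₀ : OO) (c : ℕ) (s₀ z₀ : ℤ) (L V : ℕ)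
    (hq : k.norm.natAbs.Prime) (hq5 : k.norm.natAbs ≠ 5) (hqE : Nat.Coprime k.norm.natAbs E)
    (hl : (c * g.norm.natAbs).Prime) (hlE : Nat.Coprime (c * g.norm.natAbs) E)
    (hlq : Nat.Coprime k.norm.natAbs (c * g.norm.natAbs)) (hg1 : g.re ^ 2 ≤ g.norm.natAbs) (hg2 : g.im ^ 2 ≤ g.norm.natAbs)
    (hM1 : 0 ≤ M₀.re) (hM2 : M₀.re < E) (hM3 : 0 ≤ M₀.im) (hM4 : M₀.im < E)
    (B' V' : ℕ) (hB' : 6 * (L : ℝ) / ((c : ℝ) * √(g.norm.natAbs : ℝ)) < B') (hV' : (V : ℝ) / ((c * g.norm.natAbs : ℕ) : ℝ) < V') :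
    ∃ x₁ y₁ z₁ a b d e₁ e₂ f : ℤ, RQ k g ((c * E : ℕ) : ℤ) a b d ∧
      ((Hit E k M₀ s₀ L V z₀).filter (fun t => (c : OO) * g ∣ pM E M₀ t ∧ (c : ℤ) * g.norm ∣ ps E s₀ t)).card ≤
        (FB x₁ y₁ z₁ B' V' (k.norm.natAbs ^ 3) a b d e₁ e₂ f).card := by
  have hE0 : (0 : ℝ) < E := by exact_mod_cast hE
  set n : ℕ := g.norm.natAbs with hn
  set r : ℝ := √(n : ℝ) with hr
  have hcn : c * n ≠ 0 := hl.ne_zero
  have hc0 : c ≠ 0 := fun h => hcn (by rw [h, zero_mul])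
  have hn0 : n ≠ 0 := fun h => hcn (by rw [h, mul_zero])
  have hc0' : (0 : ℝ) < c := by exact_mod_cast Nat.pos_of_ne_zero hc0
  have hn0' : (0 : ℝ) < n := by exact_mod_cast Nat.pos_of_ne_zero hn0
  have hr0 : 0 < r := Real.sqrt_pos.2 hn0'
  have hrr : r * r = n := Real.mul_self_sqrt hn0'.le
  have hnorm : (((c : ℤ) * g.norm).natAbs) = c * n := by rw [Int.natAbs_mul, Int.natAbs_natCast]
  -- coprimality
  have hgd : g ∣ ((c * n : ℕ) : OO) := by
    obtain ⟨e, he⟩ := CBD_nmA g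
    refine ⟨e * c, ?_⟩
    rw [Nat.cast_mul, ← he]
    ring
  have hsgd : star g ∣ ((c * n : ℕ) : OO) := by
    obtain ⟨e, he⟩ := hgd
    refine ⟨star e, ?_⟩
    have h1 := congrArg star he
    rw [star_natCast, star_mul'] at h1
    exact h1
  have hcgd : (c : OO) * g ∣ ((c * n : ℕ) : OO) := by
    obtain ⟨e, he⟩ := CBD_nmA g
    refine ⟨e, ?_⟩
    rw [Nat.cast_mul, ← he]
    ring
  have hk1 : IsCoprime k (star g) := CBD_cop hsgd hlq
  have hk2 : IsCoprime k ((c : OO) * g) := CBD_cop hcgd hlq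
  -- the inverse
  obtain ⟨u, hu⟩ : ∃ u : ℤ, (E : ℤ) ∣ (c : ℤ) * g.norm * u - 1 := by
    have h1 : IsCoprime ((c : ℤ) * g.norm) (E : ℤ) := by
      rw [Int.isCoprime_iff_gcd_eq_one, Int.gcd_eq_natAbs, hnorm, Int.natAbs_natCast]
      exact hlE
    obtain ⟨a, b, hab⟩ := h1
    exact ⟨a, -b, by linear_combination hab⟩
  set M₂₀ : OO := (u : OO) * star g * M₀ with hM₂₀
  set s₂₀ : ℤ := u * s₀ with hs₂₀
  obtain ⟨a, b, d, e₁, e₂, f, hRQ, hTW⟩ := hCLN E k g M₂₀ (c : ℤ) s₂₀ hq hq5 hqE hk1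
  have hlen : 6 * E * L / (c * r) / E < (B' : ℝ) := by
    refine lt_of_eq_of_lt ?_ hB'
    field_simp
  obtain ⟨x₁, hx₁⟩ := CBD_int hE (-(3 * E * L / (c * r))) (6 * E * L / (c * r)) M₂₀.re B' hlen
  obtain ⟨y₁, hy₁⟩ := CBD_int hE (-(3 * E * L / (c * r))) (6 * E * L / (c * r)) M₂₀.im B' hlen
  have hdne : ((c : ℝ) * (g.norm : ℝ)) ≠ 0 := by
    have h1 : (c : ℤ) * g.norm ≠ 0 := by
      intro h
      rw [h] at hnorm
      exact hcn hnorm.symm
    exact_mod_cast h1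
  have hdabs : |(c : ℝ) * (g.norm : ℝ)| = ((c * n : ℕ) : ℝ) := by
    rw [← hnorm, Nat.cast_natAbs]
    push_cast
    rfl
  obtain ⟨A, hA⟩ := CBD_div ((c : ℝ) * (g.norm : ℝ)) (s₀ + E * z₀) (E * V) hdne
  obtain ⟨z₁, hz₁⟩ := CBD_int hE A (E * V / ((c * n : ℕ) : ℝ)) s₂₀ V' (by
    refine lt_of_eq_of_lt ?_ hV'
    field_simp)
  refine ⟨x₁, y₁, z₁, a, b, d, e₁, e₂, f, by exact_mod_cast hRQ, ?_⟩
  refine card_le_card_of_forall_subsingleton (fun t p => (c : OO) * g * (M₂₀ + (E : OO) * ⟨p.1, p.2.1⟩) = pM E M₀ t ∧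
    (c : ℤ) * g.norm * (s₂₀ + E * p.2.2) = ps E s₀ t) ?_ ?_
  · intro t ht
    obtain ⟨ht1, ⟨M₂, hM₂⟩, ⟨s₂, hs₂⟩⟩ := mem_filter.1 ht
    unfold Hit at ht1
    obtain ⟨ht2, hCG⟩ := mem_filter.1 ht1
    rw [mem_product, mem_product, mem_Ico, mem_Ico, mem_Ico] at ht2
    obtain ⟨⟨hx0, hxL⟩, ⟨hy0, hyL⟩, hz0, hzV⟩ := ht2
    obtain ⟨X, hX'⟩ := CBD_cls hu (M₀ := M₀) (M₂ := M₂) (w := ⟨t.1, t.2.1⟩) hM₂.symm
    obtain ⟨Z, hZ'⟩ := CBD_clsZ hu (s₀ := s₀) (s₂ := s₂) (w := t.2.2) hs₂.symm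
    have hX : M₂ = M₂₀ + (E : OO) * X := hX'
    have hZ : s₂ = s₂₀ + (E : ℤ) * Z := hZ'
    rw [hM₂, hs₂] at hCG
    have h1 := CBD_tw hk2 hCG
    rw [hX, hZ] at h1
    have h2 := (hTW X.re X.im Z).1 h1
    refine ⟨(X.re, X.im, Z), ?_, ?_⟩
    · unfold FB
      rw [mem_filter, mem_product, mem_product]
      -- sizes
      have hre : (pM E M₀ t).re = M₀.re + E * t.1 := by
        unfold pM
        rw [CBD_re]
      have him : (pM E M₀ t).im = M₀.im + E * t.2.1 := by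
        unfold pM
        rw [CBD_im]
      have hreb : 0 ≤ (pM E M₀ t).re ∧ (pM E M₀ t).re ≤ E * L := by
        rw [hre]
        constructor
        · positivity
        · nlinarith
      have himb : 0 ≤ (pM E M₀ t).im ∧ (pM E M₀ t).im ≤ E * L := by
        rw [him]
        constructor
        · positivity
        · nlinarith
      have hga : |(g.re : ℝ)| ≤ r := by
        rw [hr]
        refine Real.le_sqrt_of_sq_le ?_
        rw [sq_abs]
        exact_mod_cast hg1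
      have hgb : |(g.im : ℝ)| ≤ r := by
        rw [hr]
        refine Real.le_sqrt_of_sq_le ?_
        rw [sq_abs]
        exact_mod_cast hg2
      have hmul : ((c : OO) * ((g.norm : ℤ) : OO)) * M₂ = star g * pM E M₀ t := by
        rw [hM₂, CBD_nm]
        ring
      have hm1 := congrArg QuadraticAlgebra.re hmul
      have hm2 := congrArg QuadraticAlgebra.im hmul
      have hcc : (c : OO) * ((g.norm : ℤ) : OO) = (((c : ℤ) * g.norm : ℤ) : OO) := by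
        rw [Int.cast_mul, Int.cast_natCast]
      rw [hcc, QuadraticAlgebra.re_mul, QuadraticAlgebra.re_mul, QuadraticAlgebra.re_intCast, QuadraticAlgebra.im_intCast,
        QuadraticAlgebra.re_star, QuadraticAlgebra.im_star] at hm1
      rw [hcc, QuadraticAlgebra.im_mul, QuadraticAlgebra.im_mul, QuadraticAlgebra.re_intCast, QuadraticAlgebra.im_intCast,
        QuadraticAlgebra.re_star, QuadraticAlgebra.im_star] at hm2
      have hm1' : ((c : ℝ) * (g.norm : ℝ)) * (M₂.re : ℝ) = ((g.re : ℝ) + g.im) * (pM E M₀ t).re - g.im * (pM E M₀ t).im := by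
        have : ((c : ℤ) * g.norm) * M₂.re = (g.re + g.im) * (pM E M₀ t).re - g.im * (pM E M₀ t).im := by
          push_cast at hm1
          linarith
        exact_mod_cast this
      have hm2' : ((c : ℝ) * (g.norm : ℝ)) * (M₂.im : ℝ) = (g.re : ℝ) * (pM E M₀ t).im - g.im * (pM E M₀ t).re := by
        have : ((c : ℤ) * g.norm) * M₂.im = g.re * (pM E M₀ t).im - g.im * (pM E M₀ t).re := by
          push_cast at hm2
          linarith
        exact_mod_cast this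
      have hs1 := CBD_size hr0.le hga hgb (by exact_mod_cast hreb.1) (by exact_mod_cast hreb.2 : ((pM E M₀ t).re : ℝ) ≤ (E : ℝ) * L)
        (by exact_mod_cast himb.1) (by exact_mod_cast himb.2) hdabs (Or.inl hm1')
      have hs2 := CBD_size hr0.le hga hgb (by exact_mod_cast hreb.1) (by exact_mod_cast hreb.2 : ((pM E M₀ t).re : ℝ) ≤ (E : ℝ) * L)
        (by exact_mod_cast himb.1) (by exact_mod_cast himb.2) hdabs (Or.inr hm2')
      have hbd : ∀ x : ℝ, ((c * n : ℕ) : ℝ) * |x| ≤ 3 * r * (E * L) → -(3 * E * L / (c * r)) ≤ x ∧ x ≤ 3 * E * L / (c * r) := by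
        intro x hx
        rw [← abs_le, le_div_iff₀ (by positivity)]
        push_cast at hx
        rw [← hrr] at hx
        have : r * (|x| * (c * r)) ≤ r * (3 * E * L) := by linarith
        exact le_of_mul_le_mul_left this hr0
      have hb1 := hbd _ hs1
      have hb2 := hbd _ hs2
      have hXre : (M₂.re : ℝ) = (M₂₀.re : ℝ) + E * X.re := by
        have : M₂.re = M₂₀.re + E * X.re := by
          rw [hX, CBD_re]
        rw [this]
        push_cast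
        rfl
      have hXim : (M₂.im : ℝ) = (M₂₀.im : ℝ) + E * X.im := by
        have : M₂.im = M₂₀.im + E * X.im := by
          rw [hX, CBD_im]
        rw [this]
        push_cast
        rfl
      have hlen2 : -(3 * E * L / (c * r)) + 6 * E * L / (c * r) = 3 * (E : ℝ) * L / (c * r) := by ring
      have hs₂' : ((c : ℝ) * (g.norm : ℝ)) * (s₂ : ℝ) = s₀ + E * t.2.2 := by
        have : (c : ℤ) * g.norm * s₂ = s₀ + E * t.2.2 := hs₂.symm
        exact_mod_cast this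
      have hA1 := hA s₂ (by
        rw [hs₂']
        have : (z₀ : ℝ) ≤ t.2.2 := by exact_mod_cast hz0
        nlinarith) (by
        rw [hs₂']
        have : (t.2.2 : ℝ) ≤ z₀ + V := by exact_mod_cast hzV.le
        nlinarith)
      rw [hdabs] at hA1
      have hZr : (s₂ : ℝ) = (s₂₀ : ℝ) + E * Z := by
        rw [hZ]
        push_cast
        rfl
      refine ⟨⟨hx₁ _ ?_ ?_, hy₁ _ ?_ ?_, hz₁ _ ?_ ?_⟩, h2⟩
      · rw [← hXre]; exact hb1.1
      · rw [← hXre, hlen2]; exact hb1.2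
      · rw [← hXim]; exact hb2.1
      · rw [← hXim, hlen2]; exact hb2.2
      · rw [← hZr]; exact hA1.1
      · rw [← hZr]; exact hA1.2
    · refine ⟨?_, ?_⟩
      · rw [hM₂, hX]
      · rw [hs₂, hZ]
  · intro p _ t ht t' ht'
    obtain ⟨_, h1, h2⟩ := ht
    obtain ⟨_, h1', h2'⟩ := ht'
    have h3 : pM E M₀ t = pM E M₀ t' := h1.symm.trans h1'
    have h4 : ps E s₀ t = ps E s₀ t' := h2.symm.trans h2'
    unfold pM at h3
    unfold ps at h4
    have h5 := CBD_ext hE (add_left_cancel h3)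
    have hE1 : (E : ℤ) ≠ 0 := by positivity
    have h6 := mul_left_cancel₀ hE1 (add_left_cancel h4)
    have h7 := congrArg QuadraticAlgebra.re h5
    have h8 := congrArg QuadraticAlgebra.im h5
    exact Prod.ext h7 (Prod.ext h8 h6)

/-! ## 4. Numbers -/

theorem CBD_err {Q L V B' V' c r S E : ℝ} (hQ : 0 ≤ Q) (hE : 1 ≤ E) (hL : 0 < L) (hV : 0 < V) (hS : 0 < S) (hVS : V ≤ S / 2)
    (hL1 : 100 * L ≤ √S) (hL2 : √S ≤ 200 * E * L) (hc : 1 ≤ c) (hr : 1 ≤ r) (hB1 : 6 * L / (c * r) ≤ B')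
    (hB2 : B' ≤ 8 * L / (c * r)) (hV0 : 0 ≤ V') (hV1 : V' ≤ 3 * V / (c * r ^ 2)) :
    B' * Q + (3 / 2 * r) * (Q ^ 2 * √V' + Q * V') / B' + Q * √V' ≤ 78 * E * (Q * √S) + 100 * E * (√(c * r ^ 2) * Q ^ 2) := by
  have hc0 : 0 < c := by linarith
  have hr0 : 0 < r := by linarith
  have hE0 : 0 < E := by linarith
  have hl0 : 0 < c * r ^ 2 := by positivity
  have hl1 : 1 ≤ c * r ^ 2 := by nlinarith
  have hcr : 1 ≤ c * r := by nlinarith
  have hsS : 0 ≤ √S := Real.sqrt_nonneg S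
  have hSS : √S * √S = S := Real.mul_self_sqrt hS.le
  have hB0 : 0 < B' := lt_of_lt_of_le (by positivity) hB1
  have hBi : 1 / B' ≤ c * r / (6 * L) := by
    rw [div_le_div_iff₀ hB0 (by positivity), one_mul]
    rw [div_le_iff₀ (by positivity)] at hB1
    linarith
  have h3V : √(3 * V) ≤ 2 * √S := by
    rw [show (2 : ℝ) * √S = √(4 * S) by
      rw [Real.sqrt_mul (by norm_num), show (4 : ℝ) = 2 ^ 2 by norm_num, Real.sqrt_sq (by norm_num)]]
    exact Real.sqrt_le_sqrt (by linarith)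
  have hsl : √(c * r ^ 2) * √(c * r ^ 2) = c * r ^ 2 := Real.mul_self_sqrt hl0.le
  have hsl0 : 0 < √(c * r ^ 2) := Real.sqrt_pos.2 hl0
  have hsV : √V' ≤ √(3 * V) / √(c * r ^ 2) := by
    rw [← Real.sqrt_div (by positivity)]
    exact Real.sqrt_le_sqrt hV1
  have hsV2 : √V' ≤ 2 * √S := by
    refine le_trans (Real.sqrt_le_sqrt (hV1.trans ?_)) h3V
    exact div_le_self (by positivity) hl1
  -- T1
  have hT1 : B' * Q ≤ Q * √S := by
    have h1 : B' ≤ √S := by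
      refine hB2.trans ?_
      refine (div_le_self (by positivity) hcr).trans ?_
      linarith
    nlinarith
  -- T2
  have hT2 : (3 / 2 * r) * (Q ^ 2 * √V') / B' ≤ 100 * E * (√(c * r ^ 2) * Q ^ 2) := by
    have h1 : (3 / 2 * r) * (Q ^ 2 * √V') / B' = (3 / 2 * r) * (Q ^ 2 * √V') * (1 / B') := by ring
    rw [h1]
    have h2 : (3 / 2 * r) * (Q ^ 2 * √V') * (1 / B') ≤ (3 / 2 * r) * (Q ^ 2 * (√(3 * V) / √(c * r ^ 2))) * (c * r / (6 * L)) := by
      gcongr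
    refine h2.trans ?_
    have h3 : (3 / 2 * r) * (Q ^ 2 * (√(3 * V) / √(c * r ^ 2))) * (c * r / (6 * L)) =
        (1 / 4) * √(c * r ^ 2) * Q ^ 2 * (√(3 * V) / L) := by
      have h4 : (3 / 2 * r) * (Q ^ 2 * (√(3 * V) / √(c * r ^ 2))) * (c * r / (6 * L)) =
          (1 / 4) * ((c * r ^ 2) / √(c * r ^ 2)) * Q ^ 2 * (√(3 * V) / L) := by
        field_simp
        ring
      rw [h4, Real.div_sqrt]
    rw [h3]
    have h5 : √(3 * V) / L ≤ 400 * E := by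
      rw [div_le_iff₀ hL]
      linarith
    calc (1 / 4) * √(c * r ^ 2) * Q ^ 2 * (√(3 * V) / L) ≤ (1 / 4) * √(c * r ^ 2) * Q ^ 2 * (400 * E) := by gcongr
      _ = 100 * E * (√(c * r ^ 2) * Q ^ 2) := by ring
  -- T3
  have hT3 : (3 / 2 * r) * (Q * V') / B' ≤ 75 * E * (Q * √S) := by
    have h1 : (3 / 2 * r) * (Q * V') / B' = (3 / 2 * r) * (Q * V') * (1 / B') := by ring
    rw [h1]
    have h2 : (3 / 2 * r) * (Q * V') * (1 / B') ≤ (3 / 2 * r) * (Q * (3 * V / (c * r ^ 2))) * (c * r / (6 * L)) := by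
      gcongr
    refine h2.trans ?_
    have h3 : (3 / 2 * r) * (Q * (3 * V / (c * r ^ 2))) * (c * r / (6 * L)) = 3 / 4 * Q * (V / L) := by
      field_simp
      ring
    rw [h3]
    have h5 : V / L ≤ 100 * E * √S := by
      rw [div_le_iff₀ hL]
      nlinarith
    calc 3 / 4 * Q * (V / L) ≤ 3 / 4 * Q * (100 * E * √S) := by gcongr
      _ = 75 * E * (Q * √S) := by ring
  -- T4
  have hT4 : Q * √V' ≤ 2 * (Q * √S) := by nlinarith
  have hsplit : (3 / 2 * r) * (Q ^ 2 * √V' + Q * V') / B' = (3 / 2 * r) * (Q ^ 2 * √V') / B' + (3 / 2 * r) * (Q * V') / B' := by ring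
  have hQS : 0 ≤ Q * √S := mul_nonneg hQ hsS
  rw [hsplit]
  nlinarith

/-- the numerical estimate of the errors -/
theorem CBD_num (C : ℝ) (hC : 1 ≤ C) (E B : ℕ) (hE : 1 ≤ E) (hB : 1 ≤ B) (η : ℝ) (hη : 0 < η) (hη1 : η ≤ 1 / 100) :
    ∃ N₀ : ℝ, 16 ≤ N₀ ∧ ∀ N : ℝ, N₀ ≤ N → ∀ Q L V B' V' c r S : ℝ, 0 ≤ Q → Q ≤ B * N ^ (1 / 2 - η) → 0 < L → 0 < V → 0 < S →
      S ≤ 8 * (B : ℝ) ^ 2 * N ^ (1 - 4 / 3 * η) → V ≤ S / 2 → 100 * L ≤ √S → √S ≤ 200 * E * L → 1 ≤ c → 1 ≤ r →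
      c * r ^ 2 ≤ N ^ (3 / 4 * η) → 6 * L / (c * r) ≤ B' → B' ≤ 8 * L / (c * r) → 0 ≤ V' → V' ≤ 3 * V / (c * r ^ 2) →
      C * Q ^ (η / 100) * (B' * Q + (3 / 2 * r) * (Q ^ 2 * √V' + Q * V') / B' + Q * √V') + C * B' ^ 2 ≤
        N ^ (1 - 8 / 5 * η) + N ^ (1 - 5 / 4 * η) / (c * r ^ 2) := by
  have hE' : (1 : ℝ) ≤ E := by exact_mod_cast hE
  have hB'' : (1 : ℝ) ≤ B := by exact_mod_cast hB
  have hC0 : 0 < C := by linarith
  have hE0 : (0 : ℝ) < E := by linarith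
  have hB0 : (0 : ℝ) < B := by linarith
  refine ⟨max 16 (max ((334 * C * E * (B : ℝ) ^ 3) ^ (50 / η)) ((8 * C * (B : ℝ) ^ 2) ^ (12 / η))), le_max_left _ _, ?_⟩
  intro N hN Q L V B' V' c r S hQ hQB hL hV hS hS2 hVS hL1 hL2 hc hr hcr hB1 hB2 hV0 hV1
  have hN16 : 16 ≤ N := (le_max_left _ _).trans hN
  have hN1 : 1 ≤ N := by linarith
  have hN0 : 0 < N := by linarith
  have hK1 : 334 * C * E * (B : ℝ) ^ 3 ≤ N ^ (η / 50) := by
    have h1 : (334 * C * E * (B : ℝ) ^ 3) ^ (50 / η) ≤ N := ((le_max_left _ _).trans (le_max_right _ _)).trans hN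
    have h2 : ((334 * C * E * (B : ℝ) ^ 3) ^ (50 / η)) ^ (η / 50) ≤ N ^ (η / 50) :=
      Real.rpow_le_rpow (by positivity) h1 (by positivity)
    rw [← Real.rpow_mul (by positivity), show 50 / η * (η / 50) = 1 by field_simp, Real.rpow_one] at h2
    exact h2
  have hK2 : 8 * C * (B : ℝ) ^ 2 ≤ N ^ (η / 12) := by
    have h1 : (8 * C * (B : ℝ) ^ 2) ^ (12 / η) ≤ N := ((le_max_right _ _).trans (le_max_right _ _)).trans hN
    have h2 : ((8 * C * (B : ℝ) ^ 2) ^ (12 / η)) ^ (η / 12) ≤ N ^ (η / 12) :=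
      Real.rpow_le_rpow (by positivity) h1 (by positivity)
    rw [← Real.rpow_mul (by positivity), show 12 / η * (η / 12) = 1 by field_simp, Real.rpow_one] at h2
    exact h2
  have hl0 : 0 < c * r ^ 2 := by positivity
  have hsS : √S ≤ 3 * B * N ^ (1 / 2 - 2 / 3 * η) := by
    have h1 : S ≤ (3 * B * N ^ (1 / 2 - 2 / 3 * η)) ^ 2 := by
      have h2 : (3 * B * N ^ (1 / 2 - 2 / 3 * η)) ^ 2 = 9 * (B : ℝ) ^ 2 * (N ^ (1 / 2 - 2 / 3 * η)) ^ 2 := by ring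
      rw [h2, ← Real.rpow_natCast (N ^ (1 / 2 - 2 / 3 * η)) 2, ← Real.rpow_mul hN0.le,
        show (1 / 2 - 2 / 3 * η) * ((2 : ℕ) : ℝ) = 1 - 4 / 3 * η by push_cast; ring]
      refine hS2.trans ?_
      have : 0 ≤ (B : ℝ) ^ 2 * N ^ (1 - 4 / 3 * η) := by positivity
      nlinarith
    exact Real.sqrt_le_left (by positivity) |>.2 h1
  have hQS : Q * √S ≤ 3 * (B : ℝ) ^ 2 * N ^ (1 - 13 / 8 * η) := by
    calc Q * √S ≤ (B * N ^ (1 / 2 - η)) * (3 * B * N ^ (1 / 2 - 2 / 3 * η)) :=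
        mul_le_mul hQB hsS (Real.sqrt_nonneg _) (by positivity)
      _ = 3 * (B : ℝ) ^ 2 * (N ^ (1 / 2 - η) * N ^ (1 / 2 - 2 / 3 * η)) := by ring
      _ = 3 * (B : ℝ) ^ 2 * N ^ (1 - 5 / 3 * η) := by
        rw [← Real.rpow_add hN0, show (1 / 2 - η) + (1 / 2 - 2 / 3 * η) = 1 - 5 / 3 * η by ring]
      _ ≤ 3 * (B : ℝ) ^ 2 * N ^ (1 - 13 / 8 * η) := by
        exact mul_le_mul_of_nonneg_left (Real.rpow_le_rpow_of_exponent_le hN1 (by linarith)) (by positivity)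
  have hQl : √(c * r ^ 2) * Q ^ 2 ≤ (B : ℝ) ^ 2 * N ^ (1 - 13 / 8 * η) := by
    have h1 : √(c * r ^ 2) ≤ N ^ (3 / 8 * η) := by
      rw [Real.sqrt_le_left (by positivity), ← Real.rpow_natCast (N ^ (3 / 8 * η)) 2, ← Real.rpow_mul hN0.le,
        show (3 / 8 * η) * ((2 : ℕ) : ℝ) = 3 / 4 * η by push_cast; ring]
      exact hcr
    have h2 : Q ^ 2 ≤ (B * N ^ (1 / 2 - η)) ^ 2 := pow_le_pow_left₀ hQ hQB 2
    calc √(c * r ^ 2) * Q ^ 2 ≤ N ^ (3 / 8 * η) * (B * N ^ (1 / 2 - η)) ^ 2 :=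
        mul_le_mul h1 h2 (by positivity) (by positivity)
      _ = (B : ℝ) ^ 2 * (N ^ (3 / 8 * η) * (N ^ (1 / 2 - η)) ^ 2) := by ring
      _ = (B : ℝ) ^ 2 * N ^ (1 - 13 / 8 * η) := by
        rw [← Real.rpow_natCast (N ^ (1 / 2 - η)) 2, ← Real.rpow_mul hN0.le, ← Real.rpow_add hN0,
          show 3 / 8 * η + (1 / 2 - η) * ((2 : ℕ) : ℝ) = 1 - 13 / 8 * η by push_cast; ring]
  have hQe : Q ^ (η / 100) ≤ B * N ^ (η / 200) := by
    calc Q ^ (η / 100) ≤ (B * N ^ (1 / 2 - η)) ^ (η / 100) := Real.rpow_le_rpow hQ hQB (by positivity)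
      _ = (B : ℝ) ^ (η / 100) * N ^ ((1 / 2 - η) * (η / 100)) := by
        rw [Real.mul_rpow hB0.le (by positivity), ← Real.rpow_mul hN0.le]
      _ ≤ (B : ℝ) ^ (1 : ℝ) * N ^ (η / 200) := by
        have h1 : (B : ℝ) ^ (η / 100) ≤ (B : ℝ) ^ (1 : ℝ) := Real.rpow_le_rpow_of_exponent_le hB'' (by linarith)
        have h2 : N ^ ((1 / 2 - η) * (η / 100)) ≤ N ^ (η / 200) := Real.rpow_le_rpow_of_exponent_le hN1 (by nlinarith)
        exact mul_le_mul h1 h2 (by positivity) (by positivity)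
      _ = B * N ^ (η / 200) := by rw [Real.rpow_one]
  have herr := CBD_err hQ hE' hL hV hS hVS hL1 hL2 hc hr hB1 hB2 hV0 hV1
  have herr2 : B' * Q + (3 / 2 * r) * (Q ^ 2 * √V' + Q * V') / B' + Q * √V' ≤ 334 * E * (B : ℝ) ^ 2 * N ^ (1 - 13 / 8 * η) := by
    refine herr.trans ?_
    have h1 : 78 * (E : ℝ) * (Q * √S) ≤ 78 * E * (3 * (B : ℝ) ^ 2 * N ^ (1 - 13 / 8 * η)) := by gcongr
    have h2 : 100 * (E : ℝ) * (√(c * r ^ 2) * Q ^ 2) ≤ 100 * E * ((B : ℝ) ^ 2 * N ^ (1 - 13 / 8 * η)) := by gcongr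
    linarith
  have hc0 : 0 < c := by linarith
  have hr0 : 0 < r := by linarith
  have hBp : 0 < B' := lt_of_lt_of_le (by positivity) hB1
  have hA0 : 0 ≤ B' * Q + (3 / 2 * r) * (Q ^ 2 * √V' + Q * V') / B' + Q * √V' := by positivity
  have hmain : C * Q ^ (η / 100) * (B' * Q + (3 / 2 * r) * (Q ^ 2 * √V' + Q * V') / B' + Q * √V') ≤ N ^ (1 - 8 / 5 * η) := by
    calc C * Q ^ (η / 100) * (B' * Q + (3 / 2 * r) * (Q ^ 2 * √V' + Q * V') / B' + Q * √V')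
        ≤ C * (B * N ^ (η / 200)) * (334 * E * (B : ℝ) ^ 2 * N ^ (1 - 13 / 8 * η)) := by
          refine mul_le_mul ?_ herr2 hA0 (by positivity)
          exact mul_le_mul_of_nonneg_left hQe hC0.le
      _ = (334 * C * E * (B : ℝ) ^ 3) * (N ^ (η / 200) * N ^ (1 - 13 / 8 * η)) := by ring
      _ ≤ N ^ (η / 50) * (N ^ (η / 200) * N ^ (1 - 13 / 8 * η)) := by gcongr
      _ = N ^ (1 - 8 / 5 * η) := by
        rw [← Real.rpow_add hN0, ← Real.rpow_add hN0]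
        congr 1
        ring
  have hsec : C * B' ^ 2 ≤ N ^ (1 - 5 / 4 * η) / (c * r ^ 2) := by
    have h1 : B' ^ 2 ≤ (8 * L / (c * r)) ^ 2 := pow_le_pow_left₀ hBp.le hB2 2
    have h2 : (8 * L / (c * r)) ^ 2 ≤ 64 * L ^ 2 / (c * r ^ 2) := by
      rw [div_pow, mul_pow, mul_pow]
      refine div_le_div₀ (by positivity) (by nlinarith) hl0 ?_
      have : c ≤ c ^ 2 := by nlinarith
      have hr2 : 0 ≤ r ^ 2 := by positivity
      nlinarith
    have h3 : 64 * L ^ 2 ≤ S := by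
      have h4 : √S * √S = S := Real.mul_self_sqrt hS.le
      nlinarith
    rw [le_div_iff₀ hl0]
    calc C * B' ^ 2 * (c * r ^ 2) ≤ C * (64 * L ^ 2 / (c * r ^ 2)) * (c * r ^ 2) := by
          gcongr
          exact h1.trans h2
      _ = C * (64 * L ^ 2) := by field_simp
      _ ≤ C * (8 * (B : ℝ) ^ 2 * N ^ (1 - 4 / 3 * η)) := by
          exact mul_le_mul_of_nonneg_left (h3.trans hS2) hC0.le
      _ = (8 * C * (B : ℝ) ^ 2) * N ^ (1 - 4 / 3 * η) := by ring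
      _ ≤ N ^ (η / 12) * N ^ (1 - 4 / 3 * η) := by gcongr
      _ = N ^ (1 - 5 / 4 * η) := by
        rw [← Real.rpow_add hN0]
        congr 1
        ring
  exact add_le_add hmain hsec

/-! ## 5. Assembly -/

theorem CBD (h1 : CSU_stmt) (h2 : CLN_stmt) (h3 : CPX_stmt) (h4 : WVA_stmt) (h5 : WIN_stmt) : CBD_stmt := by
  classical
  refine ⟨384, by norm_num, ?_⟩
  intro E B η hE hB hη hη1
  obtain ⟨C, hC, hCSU⟩ := h1 1 (η / 100) 1 one_pos le_rfl (by positivity) le_rfl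
  obtain ⟨N₁, hN₁⟩ := h3 E B η hE hB hη hη1
  obtain ⟨N₂, hN₂16, hN₂⟩ := CBD_num C hC E B hE hB η hη hη1
  refine ⟨max N₁ N₂, ?_⟩
  intro N hN Q L V z₀ S T M₀ s₀ hRg hPar hKF hcls c g hl hlE hg1 hg2 hlN
  obtain ⟨-, hP⟩ := hN₁ N ((le_max_left _ _).trans hN) Q hRg
  obtain ⟨p1, p2, p3, p4, p5, p6, p7, p8⟩ := hP L V z₀ S hPar
  have hNN₂ : N₂ ≤ N := (le_max_right _ _).trans hN
  have hN16 : 16 ≤ N := hN₂16.trans hNN₂
  have hN1 : 1 ≤ N := by linarith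
  have hN0 : 0 < N := by linarith
  set n : ℕ := g.norm.natAbs with hn
  set r : ℝ := √(n : ℝ) with hr
  have hcn : c * n ≠ 0 := hl.ne_zero
  have hc0 : c ≠ 0 := fun h => hcn (by rw [h, zero_mul])
  have hn0 : n ≠ 0 := fun h => hcn (by rw [h, mul_zero])
  have hc1 : (1 : ℝ) ≤ c := by exact_mod_cast Nat.one_le_iff_ne_zero.2 hc0
  have hn1 : (1 : ℝ) ≤ n := by exact_mod_cast Nat.one_le_iff_ne_zero.2 hn0
  have hr1 : 1 ≤ r := by
    rw [hr]
    exact Real.one_le_sqrt.2 hn1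
  have hrr : r ^ 2 = n := Real.sq_sqrt (by linarith)
  have hc0' : (0 : ℝ) < c := by linarith
  have hr0 : 0 < r := by linarith
  have hlr : ((c * n : ℕ) : ℝ) = c * r ^ 2 := by rw [hrr, Nat.cast_mul]
  have hl0 : 0 < (c : ℝ) * r ^ 2 := by positivity
  have hl2 : (2 : ℝ) ≤ c * r ^ 2 := by
    rw [← hlr]
    exact_mod_cast hl.two_le
  have hlN' : (c : ℝ) * r ^ 2 ≤ N ^ (3 / 4 * η) := by rw [← hlr]; exact hlN
  have hcr1 : 1 ≤ (c : ℝ) * r := by nlinarith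
  have hcrl : (c : ℝ) * r ≤ c * r ^ 2 := by nlinarith
  have hpw : ∀ e : ℝ, 3 / 4 * η ≤ e → N ^ (3 / 4 * η) ≤ N ^ e := fun e he => Real.rpow_le_rpow_of_exponent_le hN1 he
  have hlL : (c : ℝ) * r ^ 2 ≤ L := (hlN'.trans (hpw _ (by linarith))).trans p4
  have hlV : (c : ℝ) * r ^ 2 ≤ V := (hlN'.trans (hpw _ (by linarith))).trans p5
  have hlQ : (c : ℝ) * r ^ 2 ≤ Q := (hlN'.trans (hpw _ (by linarith))).trans hRg.q1
  have hL0 : (0 : ℝ) < L := by linarith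
  have hV0 : (0 : ℝ) < V := by linarith
  have hQ0 : (0 : ℝ) < Q := by linarith
  have hL1' : (1 : ℝ) ≤ L := by linarith
  have hE1 : (1 : ℝ) ≤ E := by exact_mod_cast hE
  have hE0 : (0 : ℝ) < E := by linarith
  have hsS : 0 ≤ √S := Real.sqrt_nonneg S
  have hSS : √S * √S = S := Real.mul_self_sqrt hPar.S0.le
  have hL100 : 100 * (L : ℝ) ≤ √S := by
    have := hPar.L1
    nlinarith
  have hVS : (V : ℝ) ≤ S / 2 := by
    have h6 := hPar.z1
    have h7 := hPar.z2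
    have h8 : (E : ℝ) * V ≤ S / 2 := by nlinarith
    nlinarith
  have hEL : (E : ℝ) * L ^ 2 * 2500 ≤ V := by
    have h6 := hPar.L1
    have h7 := hPar.V2
    have h8 : 100 * (E : ℝ) * L ≤ √S := by nlinarith
    have h9 : (100 * (E : ℝ) * L) ^ 2 ≤ S := by
      rw [← hSS, ← pow_two]
      exact pow_le_pow_left₀ (by positivity) h8 2
    have h10 : (E : ℝ) * (10000 * E * L ^ 2) ≤ E * (4 * V) := by nlinarith
    have h11 := le_of_mul_le_mul_left h10 hE0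
    linarith
  have hV4 : (4 : ℝ) ≤ V := by
    have h6 : N ^ (1 / 2 : ℝ) ≤ N ^ (1 - 3 / 2 * η) := Real.rpow_le_rpow_of_exponent_le hN1 (by linarith)
    have h7 : (4 : ℝ) ≤ N ^ (1 / 2 : ℝ) := by
      rw [← Real.sqrt_eq_rpow]
      refine Real.le_sqrt_of_sq_le ?_
      linarith
    exact (h7.trans h6).trans p5
  -- the box
  set B' : ℕ := ⌈6 * (L : ℝ) / (c * r)⌉₊ + 1 with hB'
  set V' : ℕ := ⌈(V : ℝ) / (c * r ^ 2)⌉₊ + 1 with hV'
  have hB1 : 6 * (L : ℝ) / (c * r) < B' := by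
    rw [hB']
    push_cast
    exact lt_of_le_of_lt (Nat.le_ceil _) (lt_add_one _)
  have hB2 : (B' : ℝ) ≤ 8 * L / (c * r) := by
    have h6 : (B' : ℝ) ≤ 6 * (L : ℝ) / (c * r) + 2 := by
      rw [hB']
      push_cast
      have := (Nat.ceil_lt_add_one (a := 6 * (L : ℝ) / (c * r)) (by positivity)).le
      linarith
    refine h6.trans ?_
    have h7 : (1 : ℝ) ≤ L / (c * r) := by
      rw [le_div_iff₀ (by positivity)]
      linarith
    have h8 : 8 * (L : ℝ) / (c * r) = 6 * (L : ℝ) / (c * r) + 2 * (L / (c * r)) := by ring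
    linarith
  have hV1 : (V : ℝ) / (c * r ^ 2) < V' := by
    rw [hV']
    push_cast
    exact lt_of_le_of_lt (Nat.le_ceil _) (lt_add_one _)
  have hV2 : (V' : ℝ) ≤ V / (c * r ^ 2) + 2 := by
    rw [hV']
    push_cast
    have := (Nat.ceil_lt_add_one (a := (V : ℝ) / (c * r ^ 2)) (by positivity)).le
    linarith
  have hV3 : (V' : ℝ) ≤ 3 * V / (c * r ^ 2) := by
    refine hV2.trans ?_
    have h7 : (1 : ℝ) ≤ V / (c * r ^ 2) := by
      rw [le_div_iff₀ (by positivity)]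
      linarith
    have h8 : 3 * (V : ℝ) / (c * r ^ 2) = V / (c * r ^ 2) + 2 * (V / (c * r ^ 2)) := by ring
    linarith
  have hV0' : (0 : ℝ) ≤ V' := Nat.cast_nonneg _
  have hB0' : (0 : ℝ) ≤ B' := Nat.cast_nonneg _
  have hBB : (B' : ℝ) ^ 2 ≤ 64 * L ^ 2 / (c * r ^ 2) := by
    refine (pow_le_pow_left₀ hB0' hB2 2).trans ?_
    rw [div_pow, mul_pow, mul_pow]
    refine div_le_div₀ (by positivity) (by nlinarith) hl0 ?_
    have h6 : (c : ℝ) ≤ c ^ 2 := by nlinarith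
    exact mul_le_mul_of_nonneg_right h6 (by positivity)
  -- the fibres
  have hfib : ∀ k : OO, ∃ x₁ y₁ z₁ a b d e₁ e₂ f : ℤ, k ∈ T → RQ k g ((c * E : ℕ) : ℤ) a b d ∧
      ((Hit E k (M₀ k) (s₀ k) L V z₀).filter (fun t => (c : OO) * g ∣ pM E (M₀ k) t ∧ (c : ℤ) * g.norm ∣ ps E (s₀ k) t)).card ≤
        (FB x₁ y₁ z₁ B' V' (k.norm.natAbs ^ 3) a b d e₁ e₂ f).card := by
    intro k
    by_cases hk : k ∈ T
    · have hKK := hKF.kk k hk
      obtain ⟨hm1, hm2, hm3, hm4, -, -⟩ := hcls k hk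
      have hqE : Nat.Coprime k.norm.natAbs E := by
        rw [hKK.pr.coprime_iff_not_dvd]
        intro hd
        have h6 := Nat.le_of_dvd hE hd
        have h7 : E ≤ Q := by exact_mod_cast p8
        have h8 := hKK.lo
        omega
      have hql : Nat.Coprime k.norm.natAbs (c * n) := by
        rw [hKK.pr.coprime_iff_not_dvd]
        intro hd
        have h6 := Nat.le_of_dvd (Nat.pos_of_ne_zero hcn) hd
        have h7 : c * n ≤ Q := by
          have : ((c * n : ℕ) : ℝ) ≤ Q := by rw [hlr]; exact hlQ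
          exact_mod_cast this
        have h8 := hKK.lo
        omega
      obtain ⟨x₁, y₁, z₁, a, b, d, e₁, e₂, f, h6, h7⟩ := CBD_fib h2 E hE k g (M₀ k) c (s₀ k) z₀ L V hKK.pr hKK.n5 hqE hl hlE hql hg1 hg2
        hm1 hm2 hm3 hm4 B' V' hB1 (by rw [← hn, hlr]; exact hV1)
      exact ⟨x₁, y₁, z₁, a, b, d, e₁, e₂, f, fun _ => ⟨h6, h7⟩⟩
    · exact ⟨0, 0, 0, 0, 0, 0, 0, 0, 0, fun h => absurd h hk⟩
  choose x y z a b d e₁ e₂ f hf using hfib
  have hgre : |(g.re : ℝ)| ≤ r := by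
    rw [hr]
    refine Real.le_sqrt_of_sq_le ?_
    rw [sq_abs]
    exact_mod_cast hg1
  have hgim : |(g.im : ℝ)| ≤ r := by
    rw [hr]
    refine Real.le_sqrt_of_sq_le ?_
    rw [sq_abs]
    exact_mod_cast hg2
  have hs5 : √(5 : ℝ) ≤ 9 / 4 := by
    rw [Real.sqrt_le_left (by norm_num)]
    norm_num
  have hs5' : 2 ≤ √(5 : ℝ) := by
    refine Real.le_sqrt_of_sq_le ?_
    norm_num
  have hva : |va g| ≤ 2 * (3 / 2 * r) := by
    unfold va
    refine (abs_add_le _ _).trans ?_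
    rw [abs_mul, abs_of_nonneg (a := (1 + √(5 : ℝ)) / 2) (by positivity)]
    have h6 : |(g.im : ℝ)| * ((1 + √5) / 2) ≤ r * 2 := mul_le_mul hgim (by linarith) (by positivity) hr0.le
    linarith
  have hvb : |vb g| ≤ 2 * (3 / 2 * r) := by
    unfold vb
    refine (abs_add_le _ _).trans ?_
    rw [abs_mul]
    have h7 : |(1 - √(5 : ℝ)) / 2| ≤ 2 := by
      rw [abs_le]
      constructor <;> linarith
    have h6 : |(g.im : ℝ)| * |(1 - √(5 : ℝ)) / 2| ≤ r * 2 := mul_le_mul hgim h7 (abs_nonneg _) hr0.le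
    linarith
  have hg0 : g ≠ 0 := by
    rintro rfl
    apply hn0
    rw [hn, QuadraticAlgebra.norm_zero]
    rfl
  have hsgd : star g ∣ ((c * n : ℕ) : OO) := by
    obtain ⟨e, he⟩ := CBD_nmA g
    refine ⟨star e * c, ?_⟩
    have h1 := congrArg star he
    rw [star_natCast, star_mul'] at h1
    rw [Nat.cast_mul, ← h1]
    ring
  have hGQ : 3 / 2 * r ≤ Q := by
    have h6 : r ≤ N ^ (3 / 4 * η) := le_trans (by nlinarith) hlN'
    have h7 : (2 : ℝ) ≤ N ^ (1 / 4 : ℝ) := by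
      have h8 : (16 : ℝ) ^ (1 / 4 : ℝ) ≤ N ^ (1 / 4 : ℝ) := Real.rpow_le_rpow (by norm_num) hN16 (by norm_num)
      have h9 : (16 : ℝ) ^ (1 / 4 : ℝ) = 2 := by
        rw [show (16 : ℝ) = 2 ^ (4 : ℝ) by norm_num, ← Real.rpow_mul (by norm_num)]
        norm_num
      linarith
    have h8 : N ^ (3 / 4 * η) * N ^ (1 / 4 : ℝ) ≤ N ^ (1 / 2 - η) := by
      rw [← Real.rpow_add hN0]
      exact Real.rpow_le_rpow_of_exponent_le hN1 (by linarith)
    have h9 : 0 < N ^ (3 / 4 * η) := by positivity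
    have h10 := hRg.q1
    nlinarith
  have hQ1 : 1 ≤ Q := by
    have : (1 : ℝ) ≤ Q := by linarith
    exact_mod_cast this
  have key := hCSU Q B' V' (c * E) (3 / 2 * r) g T (fun k => (a k, b k, d k)) x y z e₁ e₂ f hKF hQ1 (by omega) (by omega)
    (Nat.one_le_iff_ne_zero.2 (mul_ne_zero hc0 (by omega))) (by linarith) hGQ hg0 hva hvb
    (fun k hk => CBD_cop hsgd (by
      have hKK := hKF.kk k hk
      rw [hKK.pr.coprime_iff_not_dvd]
      intro hd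
      have h6 := Nat.le_of_dvd (Nat.pos_of_ne_zero hcn) hd
      have h7 : c * n ≤ Q := by
        have : ((c * n : ℕ) : ℝ) ≤ Q := by rw [hlr]; exact hlQ
        exact_mod_cast this
      have h8 := hKK.lo
      omega)) (fun k hk => (hf k hk).1) (by
      rw [one_mul]
      push_cast
      have h6 : (c : ℝ) * E * (B' : ℝ) ^ 2 ≤ c * E * (8 * L / (c * r)) ^ 2 :=
        mul_le_mul_of_nonneg_left (pow_le_pow_left₀ hB0' hB2 2) (by positivity)
      have h7 : (c : ℝ) * E * (8 * L / (c * r)) ^ 2 = 64 * (E * L ^ 2) / (c * r ^ 2) := by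
        field_simp
        ring
      have h8 : 64 * (E * (L : ℝ) ^ 2) / (c * r ^ 2) ≤ V / (c * r ^ 2) := by
        refine div_le_div_of_nonneg_right ?_ hl0.le
        nlinarith [mul_nonneg hE0.le (sq_nonneg (L : ℝ))]
      linarith) (by
      have h6 : (B' : ℝ) ^ 2 ≤ 64 * L ^ 2 := hBB.trans (div_le_self (by positivity) (by linarith))
      have h7 : (L : ℝ) ^ 2 ≤ E * L ^ 2 := by nlinarith [sq_nonneg (L : ℝ)]
      nlinarith [sq_nonneg (L : ℝ)]) (by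
      have h6 : (V : ℝ) / (c * r ^ 2) ≤ V / 2 := by
        refine div_le_div_of_nonneg_left hV0.le (by norm_num) hl2
      linarith)
  rw [abs_le] at key
  have hnum := hN₂ N hNN₂ Q L V B' V' c r S hQ0.le hRg.q2 hL0 hV0 hPar.S0 p2 hVS hL100 (by
    have := hPar.L2
    linarith) hc1 hr1 hlN' hB1.le hB2 hV0' hV3
  have hT0 : T0 T B' V' ≤ 192 * T0 T L V / ((c * n : ℕ) : ℝ) ^ 2 := by
    unfold T0
    rw [hlr, mul_sum, sum_div]
    refine sum_le_sum fun k _ => ?_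
    have h6 : (B' : ℝ) ^ 2 * V' ≤ (64 * L ^ 2 / (c * r ^ 2)) * (3 * V / (c * r ^ 2)) := mul_le_mul hBB hV3 hV0' (by positivity)
    have h7 : (64 * (L : ℝ) ^ 2 / (c * r ^ 2)) * (3 * V / (c * r ^ 2)) = 192 * ((L : ℝ) ^ 2 * V) / (c * r ^ 2) ^ 2 := by
      field_simp
      ring
    have h8 : 192 * ((L : ℝ) ^ 2 * V / (k.norm.natAbs : ℝ) ^ 3) / (c * r ^ 2) ^ 2 =
        192 * ((L : ℝ) ^ 2 * V) / (c * r ^ 2) ^ 2 / (k.norm.natAbs : ℝ) ^ 3 := by ring
    rw [h8]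
    refine div_le_div_of_nonneg_right ?_ (by positivity)
    rw [← h7]
    exact h6
  have hsum : ∑ k ∈ T, (((Hit E k (M₀ k) (s₀ k) L V z₀).filter (fun t => (c : OO) * g ∣ pM E (M₀ k) t ∧
      (c : ℤ) * g.norm ∣ ps E (s₀ k) t)).card : ℝ) ≤
      ∑ k ∈ T, ((FB (x k) (y k) (z k) B' V' (k.norm.natAbs ^ 3) (a k) (b k) (d k) (e₁ k) (e₂ k) (f k)).card : ℝ) :=
    sum_le_sum fun k hk => by exact_mod_cast (hf k hk).2
  have hfin : (384 : ℝ) * T0 T L V / ((c * n : ℕ) : ℝ) ^ 2 = 2 * (192 * T0 T L V / ((c * n : ℕ) : ℝ) ^ 2) := by ring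
  refine hsum.trans ?_
  rw [hfin]
  have h9 := key.2
  rw [hlr] at hT0 ⊢
  simp only at h9
  linarith

end Pool.Agent.RF
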