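import Pool.Agent.helper88.RF.SpecW

/-!
# Project RF (MP_16912e_nt), row WC1: counting dual points for a fixed `(a, z)`
-/

set_option autoImplicit false
open Finset
namespace Pool.Agent.RF

theorem WC1_cop {h : ℕ} {k : OO} (hc : Nat.Coprime h (5 * k.norm.natAbs)) : IsCoprime (h : OO) (5 * (k * star k)) := by
  have h1 : IsCoprime (h : ℤ) (5 * k.norm) := by
    rw [Int.isCoprime_iff_gcd_eq_one, Int.gcd_eq_natAbs, Int.natAbs_mul, Int.natAbs_natCast]
    exact hc
  have h2 := h1.map (Int.castRingHom OO)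
  have h3 : ((k.norm : ℤ) : OO) = k * star k := by
    have h4 := QuadraticAlgebra.algebraMap_norm_eq_mul_star k
    rw [← h4]
    rfl
  rw [map_mul] at h2
  simp only [eq_intCast, Int.cast_natCast] at h2
  rw [h3] at h2
  exact h2

theorem WC1_dvd {d : ℕ} {x : OO} (hd : (d : OO) ∣ x) : d ∣ cnt x := by
  obtain ⟨y, rfl⟩ := hd
  have h1 : ((d : OO) * y).re = d * y.re := by
    rw [QuadraticAlgebra.re_mul, QuadraticAlgebra.re_natCast, QuadraticAlgebra.im_natCast]
    ring
  have h2 : ((d : OO) * y).im = d * y.im := by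
    rw [QuadraticAlgebra.im_mul, QuadraticAlgebra.re_natCast, QuadraticAlgebra.im_natCast]
    ring
  unfold cnt
  rw [h1, h2]
  exact Int.dvd_gcd ⟨y.re, rfl⟩ ⟨y.im, rfl⟩

theorem WC1_pos {x : OO} (hx : x ≠ 0) : 0 < cnt x := by
  unfold cnt
  rw [Int.gcd_pos_iff]
  by_contra hcon
  push Not at hcon
  exact hx (QuadraticAlgebra.ext hcon.1 hcon.2)

theorem WC1_proof (hWDV : WDV_stmt) (hWPC : WPC_stmt) : WC1_stmt := by
  classical
  intro Q P a z D S hQ hP hD hR hS hk
  set e : ℕ := if z = 0 then cnt a else cnt z with he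
  have hfac : (0 : ℝ) ≤ D * (1 + 15 * Q * (e : ℕ) / P) := by positivity
  -- the divisors
  have hH : S.image Prod.fst ⊆ (R0 a z).natAbs.divisors := by
    intro h hh
    obtain ⟨t, ht, rfl⟩ := mem_image.1 hh
    obtain ⟨-, -, -, h4, h5⟩ := hS t ht
    rw [Nat.mem_divisors]
    refine ⟨?_, Int.natAbs_ne_zero.2 hR⟩
    have h6 := hWDV (t.1 : ℤ) t.2 a z (by exact_mod_cast WC1_cop h4) (by exact_mod_cast h5)
    exact Int.natCast_dvd.1 h6
  have hcard : S.card = ∑ h ∈ S.image Prod.fst, (S.filter fun t => t.1 = h).card :=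
    card_eq_sum_card_fiberwise fun t ht => mem_image_of_mem _ ht
  have hfib : ∀ h ∈ S.image Prod.fst, ((S.filter fun t => t.1 = h).card : ℝ) ≤ D * (1 + 15 * Q * (e : ℕ) / P) := by
    intro h hh
    obtain ⟨t₀, ht₀, hth⟩ := mem_image.1 hh
    obtain ⟨h1, h2, -, -, -⟩ := hS t₀ ht₀
    rw [hth] at h1 h2
    have hh1 : 1 ≤ h := hP.trans h1
    have hcim : (S.filter fun t => t.1 = h).card = ((S.filter fun t => t.1 = h).image Prod.snd).card := by
      rw [card_image_of_injOn]
      intro t ht t₁ ht₁ htt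
      have h3 := (mem_filter.1 (mem_coe.1 ht)).2
      have h4 := (mem_filter.1 (mem_coe.1 ht₁)).2
      exact Prod.ext (h3.trans h4.symm) htt
    rw [hcim]
    have h5 := hWPC Q h e a z ((S.filter fun t => t.1 = h).image Prod.snd) hQ hh1 (by
      intro k hk'
      obtain ⟨t, ht, rfl⟩ := mem_image.1 hk'
      obtain ⟨ht1, rfl⟩ := mem_filter.1 ht
      obtain ⟨-, -, h6, h7, h8⟩ := hS t ht1
      exact ⟨h6, WC1_cop h7, h8⟩) (by
      intro k hk' k₁ hk₁ hkk
      obtain ⟨t, ht, rfl⟩ := mem_image.1 hk'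
      obtain ⟨t₁, ht₁, rfl⟩ := mem_image.1 hk₁
      exact hk t (mem_filter.1 ht).1 t₁ (mem_filter.1 ht₁).1 hkk) (by
      intro d _ hda hdz
      rw [he]
      split_ifs with hz
      · refine Nat.le_of_dvd (WC1_pos ?_) (WC1_dvd hda)
        rintro rfl
        apply hR
        rw [hz]
        simp [R0, trO]
      · exact Nat.le_of_dvd (WC1_pos hz) (WC1_dvd hdz))
    refine h5.trans ?_
    have hP0 : (0 : ℝ) < P := by exact_mod_cast hP
    have hPh : (P : ℝ) ≤ h := by exact_mod_cast h1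
    refine mul_le_mul h2 ?_ (by positivity) hD
    gcongr
  rw [hcard]
  push_cast
  refine (sum_le_sum hfib).trans ?_
  rw [sum_const, nsmul_eq_mul]
  exact mul_le_mul_of_nonneg_right (by exact_mod_cast card_le_card hH) hfac

end Pool.Agent.RF
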